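import Pool.Agent.N184.HK.Built

/-!
# Frobenius semisimplicity for complete varieties built from reductions of hyperkähler varieties

Let `k` be the field with `q` elements. The Frobenius modules `Built q` are those which are built
from the groups `H^r` of the reductions, at good places with residue field `k`, of projective
hyperkähler varieties over number fields (of any deformation type), and from Frobenius modules which
are known to be semisimple (for example the cohomology of abelian varieties and of curves over `k`),
by direct sums, tensor products, Tate twists, stable subspaces, quotients, and extensions of modules
without common eigenvalues. We prove that Frobenius acts semisimply on all of them.

The cohomology groups of many complete singular varieties are of this kind: products (Künneth) of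
such reductions, abelian varieties and curves, their quotients by finite groups (the cohomology of
`Y / G` is the `G`-invariant part of the cohomology of `Y`), for example all symmetric powers, and
more generally all complete varieties `Z` with a proper hypercovering whose members are (disjoint
unions of) such products: the graded pieces of the weight filtration of `H^i(Z)` are subquotients of
the cohomology of the members, and pieces of different weights have no common eigenvalue.

Proof. For the reductions: the Galois group of the number field acts on the commutant of `so(H²)` in
the endomorphisms of `H^r` through a finite quotient, so that the unipotent part of Frobenius, which
is trivial on `H²`, is trivial on `H^r`.
-/

set_option autoImplicit false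

namespace Pool.Agent.Results.MP_b685ef_ag.BuiltFromHyperkaehler

open Pool.Agent.N184.HK

/-- **Frobenius semisimplicity for everything built from reductions of hyperkähler varieties.** If
the space `V` with the Frobenius `A` is built from the cohomology of good reductions, over the field
with `q` elements, of projective hyperkähler varieties over number fields, and from semisimple
Frobenius modules, by direct sums, tensor products, twists, stable subspaces, quotients, and
extensions of modules without common eigenvalues, then `A` is diagonalizable. -/
theorem result {Ω : Type} [Field Ω] [CharZero Ω] [IsAlgClosed Ω] [TopologicalSpace Ω]
    [IsTopologicalRing Ω] [T2Space Ω] (q : ℕ) (V : Type) [AddCommGroup V] [Module Ω V]
    (A : Module.End Ω V) (h : Built q V A) : (⨆ e : Ω, A.eigenspace e) = ⊤ :=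
  h.diag.2

end Pool.Agent.Results.MP_b685ef_ag.BuiltFromHyperkaehler
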