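import Pool.Agent.N536.FS.Law

/-!
# A zero–one law for the semisimplicity of Frobenius on complete varieties

Let `k` be a finite field and let `H^m(X) = H^m(X_{\bar k}, \bar ℚ_ℓ)` be the étale cohomology groups of
the complete varieties `X` over `k` (which need not be smooth), with the Frobenius operator `F`. Only
the following properties are used (`IsFTheory P H`): `P` is a class of proper `k`-schemes which is
closed under products (for example all of them, or the smooth projective ones); on `P` the
cohomology has finite dimension, `F` is invertible and respects the degrees, and the Künneth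
formula holds.

For a variety `Y` let `b(Y)` be the dimension of the whole cohomology, and let `j(Y)` be the number of
the Jordan blocks of Frobenius on it, that is, the dimension of the sum of the eigenspaces.

Theorem. (1) Frobenius is semisimple on all the groups `H^m(X)` if and only if `j(X) = b(X)`, and in
this case `j(X^n) = b(X^n)` for all `n ≥ 1`.

(2) If Frobenius is not semisimple on the cohomology of `X`, then
`j(X^n) / b(X^n) ≤ √(b(X) / (2 (n + 1)))` for all `n ≥ 1`, and
`√n · j(X^n) / b(X^n)` tends to `√(2 b(X) / (π M))`, where `M = 2 ∑ k (b(X) - d_k)` and `d_k` is the sum of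
the dimensions of the kernels of the operators `(F - α)^k`; here `M > 0`.

(3) Consequently, Frobenius is semisimple on the cohomology of all varieties in `P` as soon as
`j(Y) / b(Y) ≥ f(b(Y))` for all `Y` in `P` and a function `f` such that `f(y) √(log y)` tends to
infinity; for example, if for some `ε > 0` at least `ε b(Y)` of the Jordan blocks exist for all `Y`.

Proof. One writes `F = S exp(N)` with `S` diagonalisable, `N` nilpotent and `S N = N S`. Then the sum of
the kernels of the `(F - α)^k` is the kernel of `N^k`, and on `X × Y` the operator `N` is
`N ⊗ 1 + 1 ⊗ N`. Therefore `j(X^n)` is the dimension of the kernel of the lowering operator of a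
representation of `sl(2)`, that is, the number of the `n`-tuples of vectors of a basis of Jordan strings
whose weights `a` satisfy `∑ a ∈ {0, 1}`. If `N ≠ 0` there are basis vectors with `a(i) = a(j) + 2`; an
involution (exchange of `i` and `j` at a random set of places) and the bound for the middle binomial
coefficient give the inequality, and the local limit theorem gives the limit.
-/

set_option autoImplicit false

open Module Filter Topology

namespace Pool.Agent.Results.MP_b685ef_ag.ZeroOneLawJordanBlocks

universe u v w

open Pool.Agent.N536.FS

/-- **The zero–one law for the semisimplicity of Frobenius.** -/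
theorem result {k : Type u} [Field k] {Ω : Type w} [Field Ω] [CharZero Ω] [IsAlgClosed Ω]
    {P : PVar.{u} k → Prop} {H : PVar.{u} k → FCoh.{v, w} Ω} (hH : IsFTheory P H) :
    (∀ X, P X →
      ((∀ m, (H X).Semisimple m) ↔ (H X).blocks = (H X).betti) ∧
      (∀ n, (H (X.pow n)).betti = (H X).betti ^ (n + 1)) ∧
      ((∀ m, (H X).Semisimple m) → ∀ n, (H (X.pow n)).blocks = (H (X.pow n)).betti) ∧
      (¬ (∀ m, (H X).Semisimple m) → 0 < (H X).moment ∧
        (∀ n : ℕ, 2 * ((n : ℝ) + 2) * ((H (X.pow n)).blocks : ℝ) ^ 2 ≤
          (H X).betti * ((H (X.pow n)).betti : ℝ) ^ 2) ∧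
        Tendsto (fun n : ℕ => √((n : ℝ) + 1) *
          ((H (X.pow n)).blocks / (H (X.pow n)).betti : ℝ)) atTop
          (𝓝 (√(2 * (H X).betti / (Real.pi * (H X).moment)))))) ∧
    ∀ f : ℕ → ℝ, Tendsto (fun y : ℕ => f y * √(Real.log y)) atTop atTop →
      (∀ X, P X → f (H X).betti * (H X).betti ≤ (H X).blocks) →
      ∀ X, P X → ∀ m, (H X).Semisimple m := by
  refine ⟨fun X hX => ?_, fun f hf h X hX => share hH f hf h X hX⟩
  obtain ⟨h1, -, h3, h4, h5⟩ := law hH hX
  exact ⟨h1, h3, h4, fun h => (h5 h).2⟩

end Pool.Agent.Results.MP_b685ef_ag.ZeroOneLawJordanBlocks
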